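import Pool.Agent.W581.HQ.Stm

/-! Task HQ-SVD (helper581): singular value decomposition of real `2 × 2` matrices. -/

set_option autoImplicit false

namespace Pool.Agent.W334.HQ

open Pool.Agent.W581.HQ
open Pool.Agent.W360.MQ (cab)

lemma cab_a (A : M2) : (cab A).1.re = (A 0 0 + A 1 1) / 2 ∧ (cab A).1.im = (A 1 0 - A 0 1) / 2 := by
  have h : (cab A).1 = (((A 0 0 + A 1 1) / 2 : ℝ) : ℂ) + (((A 1 0 - A 0 1) / 2 : ℝ) : ℂ) *
      Complex.I := by
    unfold cab
    push_cast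
    ring
  rw [h]
  constructor <;> simp

lemma cab_b (A : M2) : (cab A).2.re = (A 0 0 - A 1 1) / 2 ∧ (cab A).2.im = (A 1 0 + A 0 1) / 2 := by
  have h : (cab A).2 = (((A 0 0 - A 1 1) / 2 : ℝ) : ℂ) + (((A 1 0 + A 0 1) / 2 : ℝ) : ℂ) *
      Complex.I := by
    unfold cab
    push_cast
    ring
  rw [h]
  constructor <;> simp

theorem main : S_SVD := by
  intro A
  have har := Complex.norm_mul_cos_arg (cab A).1
  have hai := Complex.norm_mul_sin_arg (cab A).1
  have hbr := Complex.norm_mul_cos_arg (cab A).2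
  have hbi := Complex.norm_mul_sin_arg (cab A).2
  rw [(cab_a A).1] at har
  rw [(cab_a A).2] at hai
  rw [(cab_b A).1] at hbr
  rw [(cab_b A).2] at hbi
  set x := ‖(cab A).1‖
  set y := ‖(cab A).2‖
  set μ := (cab A).1.arg
  set ν := (cab A).2.arg
  refine ⟨(μ + ν) / 2, (μ - ν) / 2, ?_⟩
  have h1 : μ = (μ + ν) / 2 + (μ - ν) / 2 := by ring
  have h2 : ν = (μ + ν) / 2 - (μ - ν) / 2 := by ring
  set s := (μ + ν) / 2
  set t := (μ - ν) / 2
  rw [h1, Real.cos_add] at har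
  rw [h1, Real.sin_add] at hai
  rw [h2, Real.cos_sub] at hbr
  rw [h2, Real.sin_sub] at hbi
  ext i j
  fin_cases i <;> fin_cases j <;>
    simp [R, dg, Matrix.mul_apply, Fin.sum_univ_two] <;> linarith

end Pool.Agent.W334.HQ
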